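import Pool.Agent.MWNP.Stmts

/-!
Clause c4b of base (h), arbitrary period (helper76; tools from the file of helper33 for c4c and
of helper26 for period one).
-/

set_option autoImplicit false

namespace Pool.Agent.MWNP.H76

open Pool.Agent.Helper14_MV Pool.Agent.Helper2_MV Pool.Agent.MVO Pool.Agent.MWL Pool.Agent.MWS
  Pool.Agent.MWF Pool.Agent.MWN

/-- three blocks -/
def b3 (x y z : List ℕ) : ℕ → List ℕ :=
  fun j => if j = 0 then x else if j = 1 then y else if j = 2 then z else []

theorem sub' {β : FIC} (g : ℕ → List ℕ) {l l' m m' : List ℕ} (h : RR β l l')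
    (e : l.flatMap g = m) (e' : l'.flatMap g = m') : RR β m m' := by
  rw [← e, ← e']
  exact h.sub g

theorem ctx {β : FIC} (p q : List ℕ) {l l' m m' : List ℕ} (h : RR β l l')
    (e : p ++ l ++ q = m) (e' : p ++ l' ++ q = m') : RR β m m' := by
  rw [← e, ← e']
  exact ((RR.refl p).append h).append (RR.refl q)

theorem tr {β : FIC} {l m n : List ℕ} (h : RR β l m) (h' : RR β m n) : RR β l n := β.trans h h'

/-- delete `4` -/
def gd (c : ℕ) : List ℕ := if c = 4 then [] else [c]

/-- put `m` letters `0` behind `2` -/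
def g2 (m c : ℕ) : List ℕ := if c = 2 then 2 :: List.replicate m 0 else [c]

/-- put `m` letters `0` in front of `3` -/
def g3 (m c : ℕ) : List ℕ := if c = 3 then List.replicate m 0 ++ [3] else [c]

theorem rep_one (m : ℕ) (q : List ℕ) :
    List.replicate m 0 ++ 0 :: q = List.replicate (m + 1) 0 ++ q := by
  induction m with
  | zero => rfl
  | succ m ih =>
    rw [List.replicate_succ, List.cons_append, ih, List.replicate_succ (n := m + 1)]
    rfl

theorem rep_cons (m : ℕ) (q : List ℕ) :
    0 :: (List.replicate m 0 ++ q) = List.replicate (m + 1) 0 ++ q := by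
  rw [List.replicate_succ]
  rfl

theorem flat_rep (g : ℕ → List ℕ) (h : g 0 = [0]) (m : ℕ) :
    (List.replicate m 0).flatMap g = List.replicate m 0 := by
  induction m with
  | zero => rfl
  | succ m ih => rw [List.replicate_succ, List.flatMap_cons, ih, h]; rfl

theorem two_b3 {x y z : List ℕ} (h : ∀ c ∈ x ++ (y ++ z), c = 0 ∨ c = 1) : Two01 2 (b3 x y z) := by
  intro j hj c hc
  have h1 : j = 0 ∨ j = 1 ∨ j = 2 := by omega
  rcases h1 with rfl | rfl | rfl
  · exact h c (List.mem_append_left _ hc)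
  · exact h c (List.mem_append_right _ (List.mem_append_left _ hc))
  · exact h c (List.mem_append_right _ (List.mem_append_right _ hc))

theorem ok_b3 {x y z : List ℕ} (h : ∀ c ∈ x ++ (y ++ z), c = 0 ∨ c = 1)
    (h0 : 2 ≤ deg 2 (ty (b3 x y z) 0)) (h1 : 2 ≤ deg 2 (ty (b3 x y z) 1)) :
    OkB 2 (b3 x y z) := by
  refine ⟨fun j hj c hc => ?_, fun j hj c hc => ?_⟩
  · have := two_b3 h j hj c hc
    unfold NS
    omega
  · rcases two_b3 h j hj c hc with rfl | rfl
    · exact h0
    · exact h1

theorem deg_b3 (x y z : List ℕ) (c : ℕ) :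
    deg 2 (ty (b3 x y z) c) = x.count c + y.count c + z.count c := by
  unfold deg
  rw [Finset.sum_range_succ, Finset.sum_range_succ, Finset.sum_range_succ, Finset.sum_range_zero]
  simp [ty, b3]

theorem asm_b3 (x y z : List ℕ) : asm 2 (b3 x y z) = x ++ 2 :: (y ++ 3 :: z) := by
  simp [asm, b3]

theorem sh_b3 {n : ℕ} {a b : ℕ → ℕ} (h : ∀ j < 3, a j = b j) : Shn n 2 a b :=
  fun j hj => Or.inl (h j (by omega))

theorem mw_ad0 (n : ℕ) (a : ℕ → ℕ) : mw 2 (ad n a 0) = List.replicate (2 * n) 0 ++ mw 2 a := by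
  have h0 : ad n a 0 0 = 2 * n + a 0 := by simp [ad, add_comm]
  have h1 : ad n a 0 1 = a 1 := by simp [ad]
  have h2 : ad n a 0 2 = a 2 := by simp [ad]
  simp only [mw, asm, zero_add, Nat.reduceAdd, h0, h1, h2]
  rw [List.replicate_add]
  simp only [List.append_assoc]

theorem wG {n : ℕ} {β : FIC} (h : Op n β Bit.G) :
    RR β [2, 0, 0] (List.replicate (2 * n) 0 ++ [2, 0, 0]) := by
  have h1 : RR β (mw 1 (v2 0 2)) (mw 1 (ad n (v2 0 2) 0)) := h
  have e1 : mw 1 (v2 0 2) = [2, 0, 0] := by decide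
  have e2 : mw 1 (ad n (v2 0 2) 0) = List.replicate (2 * n) 0 ++ [2, 0, 0] := by
    simp [mw, asm, ad, v2, List.replicate]
  rwa [e1, e2] at h1

theorem g022 {n : ℕ} {β : FIC} (hG : Op n β Bit.G) {a : ℕ → ℕ}
    (h : mw 2 a = [2, 0, 0, 3, 0, 0]) : Ab n (FC.ofFIC β) 2 a 0 := by
  have h3 : RR β (mw 2 a) (mw 2 (ad n a 0)) := by
    rw [mw_ad0, h]
    exact ctx [] [3, 0, 0] (wG hG) rfl (by simp)
  exact h3

theorem p4b (hp : PphStmt) (hx : PcxStmt) (ho : PcoStmt) (hd : PddStmt) : P4bStmt := by
  intro n β H hi hm hJ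
  by_contra hc
  have hn := H.pos
  obtain ⟨hd1, hd2⟩ := hd n β H
  -- `2 n + 2` letters `0` are the same as two letters `0`
  have kf : ∀ (p q : List ℕ), RR β (p ++ (List.replicate (2 * n + 2) 0 ++ q)) (p ++ 0 :: 0 :: q) :=
    fun p q => hd2 p q 0 (2 * n + 2) 2 (by omega) le_rfl (by
      show (2 * n + 2) % n = 2 % n
      rw [Nat.add_comm, Nat.mul_comm, Nat.add_mul_mod_self_left])
  -- four letters `0` at the end
  have km : ∀ (p p' : List ℕ), RR β (p ++ [0, 0, 0, 0]) (p' ++ [0, 0, 0, 0]) →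
      RR β (p ++ [0, 0]) (p' ++ [0, 0]) := by
    intro p p' h
    have hflat : ∀ p : List ℕ, p ++ [0, 0, 0, 0] ++ List.replicate (2 * n - 2) 0 =
        p ++ (List.replicate (2 * n + 2) 0 ++ []) := by
      intro p
      have e1 : 2 * n + 2 = 4 + (2 * n - 2) := by omega
      rw [List.append_nil, e1, List.replicate_add, List.append_assoc]
      rfl
    have h1 : RR β (p ++ (List.replicate (2 * n + 2) 0 ++ []))
        (p' ++ (List.replicate (2 * n + 2) 0 ++ [])) :=
      ctx [] (List.replicate (2 * n - 2) 0) h (by rw [List.nil_append, hflat])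
        (by rw [List.nil_append, hflat])
    exact tr (RR.symm (kf p [])) (tr h1 (kf p' []))
  by_cases hD : Op n β (Bit.D 0)
  · -- the case `D 0`
    have key : ∀ st, C3b β st := by
      intro st
      by_contra h3
      have hG : ¬ Op n β Bit.G := by
        intro hG
        apply h3
        cases st
        · exact ho n β H hi 2 (b3 [1] [0, 0, 1] [0, 0]) (b3 [1] [0, 1, 0] [0, 0]) 0 1 0
            (ok_b3 (by decide) (by decide) (by decide)) (ok_b3 (by decide) (by decide) (by decide))
            (two_b3 (by decide)) (two_b3 (by decide)) (sh_b3 (by decide)) (sh_b3 (by decide))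
            (Or.inl ⟨rfl, rfl⟩) (Nat.zero_le _) (by decide) (by decide) (by decide)
            (g022 hG (by decide))
        · exact ho n β H hi 2 (b3 [1] [1, 0, 0] [0, 0]) (b3 [1] [0, 1, 0] [0, 0]) 0 1 0
            (ok_b3 (by decide) (by decide) (by decide)) (ok_b3 (by decide) (by decide) (by decide))
            (two_b3 (by decide)) (two_b3 (by decide)) (sh_b3 (by decide)) (sh_b3 (by decide))
            (Or.inl ⟨rfl, rfl⟩) (Nat.zero_le _) (by decide) (by decide) (by decide)
            (g022 hG (by decide))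
      have hA1 : Clo β 3 (cd4 Cd.z Cd.one Cd.one Cd.one) := hx n β H hi [8, 10] 3 _
        (by
          intro x hx
          simp only [List.mem_cons, List.not_mem_nil, or_false] at hx
          tauto) (by decide +kernel)
      have hB1 : Clo β 3 (cd4 Cd.one Cd.one Cd.z Cd.z) := hx n β H hi [8] 3 _
        (by
          intro x hx
          simp only [List.mem_cons, List.not_mem_nil, or_false] at hx
          tauto) (by decide +kernel)
      have hA2 : Clo β 3 (cd4 Cd.z Cd.pos Cd.any Cd.any) := hx n β H hi [8, 10, 2] 3 _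
        (by
          intro x hx
          simp only [List.mem_cons, List.not_mem_nil, or_false] at hx
          tauto) (by decide +kernel)
      rcases hp n β H hi hm 3 1 (cd4 Cd.z Cd.one Cd.one Cd.one) (cd4 Cd.one Cd.one Cd.z Cd.z)
        (cd4 Cd.z Cd.pos Cd.any Cd.any) (cd4 Cd.one Cd.one Cd.z Cd.z) st (v4 0 2 2 2)
        (v4 0 1 1 1) (v4 1 1 0 0) (v4 1 1 0 0) (by decide +kernel) (by decide) (by decide)
        (by decide) (by decide) hA1 hB1 hA2 hB1 with h | h
      · apply hc
        cases st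
        · have h1 : RR β [1, 2, 0, 1, 3, 0, 4, 0] [1, 2, 1, 0, 3, 0, 4, 0] := h
          exact sub' gd h1 rfl rfl
        · have h1 : RR β [1, 2, 1, 0, 3, 0, 4, 0] [1, 2, 0, 1, 3, 0, 4, 0] := h
          exact sub' gd h1.symm rfl rfl
      · apply h3
        cases st
        · have h1 : RR β [1, 2, 0, 0, 1, 3, 0, 0, 4, 0, 0] [1, 2, 0, 1, 0, 3, 0, 0, 4, 0, 0] := h
          have h2 : RR β [1, 2, 0, 0, 1, 3, 0, 0, 0, 0] [1, 2, 0, 1, 0, 3, 0, 0, 0, 0] :=
            sub' gd h1 rfl rfl
          exact km [1, 2, 0, 0, 1, 3] [1, 2, 0, 1, 0, 3] h2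
        · have h1 : RR β [1, 2, 1, 0, 0, 3, 0, 0, 4, 0, 0] [1, 2, 0, 1, 0, 3, 0, 0, 4, 0, 0] := h
          have h2 : RR β [1, 2, 1, 0, 0, 3, 0, 0, 0, 0] [1, 2, 0, 1, 0, 3, 0, 0, 0, 0] :=
            sub' gd h1 rfl rfl
          exact km [1, 2, 1, 0, 0, 3] [1, 2, 0, 1, 0, 3] h2
    apply hc
    have e1 : 2 * n - 1 + 1 = 2 * n := by omega
    have e2 : 2 * n - 1 + 1 + 1 = 2 * n + 1 := by omega
    have s1 : RR β [1, 2, 0, 1, 3, 0, 0] ([1, 2] ++ (List.replicate (2 * n + 1) 0 ++ [1, 3, 0, 0])) :=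
      hd1 hD [1, 2] [1, 3] [] 0
    have s2 : RR β ([1, 2] ++ (List.replicate (2 * n + 1) 0 ++ [1, 3, 0, 0]))
        ([1, 2] ++ (List.replicate (2 * n) 0 ++ [1, 0, 3, 0, 0])) := by
      have h : RR β [1, 2, 0, 0, 1, 3, 0, 0] [1, 2, 0, 1, 0, 3, 0, 0] := key false
      refine sub' (g2 (2 * n - 1)) h ?_ ?_
      · have h1 : [1, 2, 0, 0, 1, 3, 0, 0].flatMap (g2 (2 * n - 1)) =
            [1, 2] ++ (List.replicate (2 * n - 1) 0 ++ 0 :: 0 :: [1, 3, 0, 0]) := by simp [g2]
        rw [h1, rep_one, rep_one, e2]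
      · have h1 : [1, 2, 0, 1, 0, 3, 0, 0].flatMap (g2 (2 * n - 1)) =
            [1, 2] ++ (List.replicate (2 * n - 1) 0 ++ 0 :: [1, 0, 3, 0, 0]) := by simp [g2]
        rw [h1, rep_one, e1]
    have s3 : RR β ([1, 2] ++ (List.replicate (2 * n) 0 ++ [1, 0, 3, 0, 0]))
        ([1, 2, 0, 1] ++ (List.replicate (2 * n) 0 ++ [3, 0, 0])) := by
      have hrep : ∀ c ∈ List.replicate (2 * n) 0, c = 0 := fun c hc => List.eq_of_mem_replicate hc
      have hm0 : (0 : ℕ) ∈ List.replicate (2 * n) 0 := by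
        rw [List.mem_replicate]
        exact ⟨by omega, rfl⟩
      have hx0 : ∀ c ∈ [1] ++ ((List.replicate (2 * n) 0 ++ [1, 0]) ++ [0, 0]), c = 0 ∨ c = 1 := by
        intro c hc
        simp only [List.mem_append, List.mem_cons, List.not_mem_nil, or_false] at hc
        rcases hc with hc | (hc | hc | hc) | (hc | hc)
        · exact Or.inr hc
        · exact Or.inl (hrep c hc)
        · exact Or.inr hc
        · exact Or.inl hc
        · exact Or.inl hc
        · exact Or.inl hc
      have hy0 : ∀ c ∈ [1] ++ (([0, 1] ++ List.replicate (2 * n) 0) ++ [0, 0]), c = 0 ∨ c = 1 := by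
        intro c hc
        simp only [List.mem_append, List.mem_cons, List.not_mem_nil, or_false] at hc
        rcases hc with hc | ((hc | hc) | hc) | (hc | hc)
        · exact Or.inr hc
        · exact Or.inl hc
        · exact Or.inr hc
        · exact Or.inl (hrep c hc)
        · exact Or.inl hc
        · exact Or.inl hc
      have c0 : (List.replicate (2 * n) 0 ++ [1, 0]).count 0 =
          ([0, 1] ++ List.replicate (2 * n) 0).count 0 := by
        simp only [List.count_append]
        rw [add_comm]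
        rfl
      have c1 : (List.replicate (2 * n) 0 ++ [1, 0]).count 1 =
          ([0, 1] ++ List.replicate (2 * n) 0).count 1 := by
        simp only [List.count_append]
        rw [add_comm]
        rfl
      have k1 : List.Sublist [1, 0] (List.replicate (2 * n) 0 ++ [1, 0]) :=
        List.sublist_append_right _ _
      have k2 : List.Sublist [0, 1] (List.replicate (2 * n) 0 ++ [1, 0]) :=
        (List.singleton_sublist.mpr hm0).append (l₁ := [0]) (r₁ := [1])
          (List.singleton_sublist.mpr (by decide))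
      have k3 : List.Sublist [0, 1] ([0, 1] ++ List.replicate (2 * n) 0) :=
        List.sublist_append_left _ _
      have k4 : List.Sublist [1, 0] ([0, 1] ++ List.replicate (2 * n) 0) :=
        (List.singleton_sublist.mpr (by decide : (1 : ℕ) ∈ [0, 1])).append (l₁ := [1]) (r₁ := [0])
          (List.singleton_sublist.mpr hm0)
      have h := H.hst 2 (b3 [1] (List.replicate (2 * n) 0 ++ [1, 0]) [0, 0])
        (b3 [1] ([0, 1] ++ List.replicate (2 * n) 0) [0, 0])
        (ok_b3 hx0 (by rw [deg_b3]; simp) (by rw [deg_b3]; simp; omega))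
        (ok_b3 hy0 (by rw [deg_b3]; simp) (by rw [deg_b3]; simp; omega))
        (two_b3 hx0) (two_b3 hy0)
        (sh_b3 (by
          intro j hj
          interval_cases j
          · rfl
          · exact c0
          · rfl))
        (sh_b3 (by
          intro j hj
          interval_cases j
          · rfl
          · exact c1
          · rfl)) (by
          intro i hi hc
          by_cases h0 : i = 1
          · subst h0
            refine ⟨?_, ?_⟩
            · refine ⟨fun h => absurd k1 h, fun h => absurd k4 h⟩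
            · refine ⟨fun h => absurd k2 h, fun h => absurd k3 h⟩
          · exfalso
            rcases hc 1 (by omega) (Ne.symm h0) with h | h
            · exact h (k1.subset (by decide))
            · exact h (k1.subset (by decide)))
      rw [asm_b3, asm_b3] at h
      refine ctx [] [] h ?_ ?_
      · simp
      · simp
    have s4 : RR β ([1, 2, 1] ++ (List.replicate (2 * n + 1) 0 ++ [3, 0, 0]))
        ([1, 2, 0, 1] ++ (List.replicate (2 * n) 0 ++ [3, 0, 0])) := by
      have h : RR β [1, 2, 1, 0, 0, 3, 0, 0] [1, 2, 0, 1, 0, 3, 0, 0] := key true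
      refine sub' (g3 (2 * n - 1)) h ?_ ?_
      · have h1 : [1, 2, 1, 0, 0, 3, 0, 0].flatMap (g3 (2 * n - 1)) =
            1 :: 2 :: 1 :: 0 :: 0 :: (List.replicate (2 * n - 1) 0 ++ [3, 0, 0]) := by simp [g3]
        rw [h1, rep_cons, rep_cons, e2]
        rfl
      · have h1 : [1, 2, 0, 1, 0, 3, 0, 0].flatMap (g3 (2 * n - 1)) =
            1 :: 2 :: 0 :: 1 :: 0 :: (List.replicate (2 * n - 1) 0 ++ [3, 0, 0]) := by simp [g3]
        rw [h1, rep_cons, e1]
        rfl
    have s5 : RR β [1, 2, 1, 0, 3, 0, 0]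
        ([1, 2, 1] ++ (List.replicate (2 * n + 1) 0 ++ [3, 0, 0])) := hd1 hD [1, 2, 1] [3] [] 0
    exact tr s1 (tr s2 (tr s3 (tr s4.symm s5.symm)))
  · -- the case without `D 0`
    have hG : ¬ Op n β Bit.G := by
      intro hG
      apply hD
      have h2 : RR β [0, 2, 0, 0] ([0] ++ (List.replicate (2 * n) 0 ++ [2, 0, 0])) :=
        ctx [0] [] (wG hG) rfl (List.append_nil _)
      have e1 : mw 1 (Bit.D 0).a = [0, 2, 0, 0] := by decide
      have e2 : mw 1 (ad n (Bit.D 0).a 0) = [0] ++ (List.replicate (2 * n) 0 ++ [2, 0, 0]) := by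
        have a0 : ad n (Bit.D 0).a 0 0 = 1 + 2 * n := by simp [ad, Bit.a]
        have a1 : ad n (Bit.D 0).a 0 1 = 2 := by simp [ad, Bit.a]
        simp only [mw, asm, zero_add, Nat.reduceAdd, a0, a1]
        rw [List.replicate_add]
        simp [List.replicate]
      have h3 : RR β (mw 1 (Bit.D 0).a) (mw 1 (ad n (Bit.D 0).a 0)) := by
        rw [e1, e2]
        exact h2
      exact h3
    have hA1 : Clo β 3 (cd4 Cd.z Cd.one Cd.one Cd.one) := hx n β H hi [8, 10] 3 _
      (by
        intro x hx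
        simp only [List.mem_cons, List.not_mem_nil, or_false] at hx
        tauto) (by decide +kernel)
    have hB1 : Clo β 3 (cd4 Cd.one Cd.one Cd.z Cd.z) := hx n β H hi [8] 3 _
      (by
        intro x hx
        simp only [List.mem_cons, List.not_mem_nil, or_false] at hx
        tauto) (by decide +kernel)
    have hA2 : Clo β 3 (cd4 Cd.z Cd.one Cd.any Cd.any) := hx n β H hi [8, 10, 3, 2] 3 _
      (by
        intro x hx
        simp only [List.mem_cons, List.not_mem_nil, or_false] at hx
        tauto) (by decide +kernel)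
    apply hc
    rcases hp n β H hi hm 3 1 (cd4 Cd.z Cd.one Cd.one Cd.one) (cd4 Cd.one Cd.one Cd.z Cd.z)
      (cd4 Cd.z Cd.one Cd.any Cd.any) (cd4 Cd.one Cd.one Cd.z Cd.z) false (v4 0 1 2 2)
      (v4 0 1 1 1) (v4 1 1 0 0) (v4 1 1 0 0) (by decide +kernel) (by decide) (by decide)
      (by decide) (by decide) hA1 hB1 hA2 hB1 with h | h
    · have h1 : RR β [1, 2, 0, 1, 3, 0, 4, 0] [1, 2, 1, 0, 3, 0, 4, 0] := h
      exact sub' gd h1 rfl rfl
    · have h1 : RR β [1, 2, 0, 1, 3, 0, 0, 4, 0, 0] [1, 2, 1, 0, 3, 0, 0, 4, 0, 0] := h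
      have h2 : RR β [1, 2, 0, 1, 3, 0, 0, 0, 0] [1, 2, 1, 0, 3, 0, 0, 0, 0] :=
        sub' gd h1 rfl rfl
      exact km [1, 2, 0, 1, 3] [1, 2, 1, 0, 3] h2

end Pool.Agent.MWNP.H76
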